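import Mathlib

/-!
# Integral matrices acting on powers of an abelian group
-/

namespace Pool.Agent.H204R3.TD

variable {L : Type*} [AddCommGroup L] {g : ℕ}

/-- The endomorphism `x ↦ (∑ j, B i j • x j)` of `L ^ g` given by an integral matrix `B`. -/
def matAct (B : Matrix (Fin g) (Fin g) ℤ) : (Fin g → L) →+ (Fin g → L) where
  toFun x := fun i => ∑ j, B i j • x j
  map_zero' := by funext i; simp
  map_add' x y := by funext i; simp [Finset.sum_add_distrib]

theorem matAct_apply (B : Matrix (Fin g) (Fin g) ℤ) (x : Fin g → L) (i : Fin g) :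
    matAct B x i = ∑ j, B i j • x j := rfl

theorem matAct_one (x : Fin g → L) : matAct (1 : Matrix (Fin g) (Fin g) ℤ) x = x := by
  funext i
  simp [matAct_apply, Matrix.one_apply]

theorem matAct_zero (x : Fin g → L) : matAct (0 : Matrix (Fin g) (Fin g) ℤ) x = 0 := by
  funext i
  simp [matAct_apply]

theorem matAct_mul (B B' : Matrix (Fin g) (Fin g) ℤ) (x : Fin g → L) :
    matAct (B * B') x = matAct B (matAct B' x) := by
  funext i
  simp only [matAct_apply, Matrix.mul_apply, Finset.smul_sum, Finset.sum_smul, mul_smul]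
  exact Finset.sum_comm

theorem matAct_add (B B' : Matrix (Fin g) (Fin g) ℤ) (x : Fin g → L) :
    matAct (B + B') x = matAct B x + matAct B' x := by
  funext i
  simp only [matAct_apply, Matrix.add_apply, add_smul, Finset.sum_add_distrib, Pi.add_apply]

theorem matAct_neg (B : Matrix (Fin g) (Fin g) ℤ) (x : Fin g → L) :
    matAct (-B) x = - matAct B x := by
  funext i
  simp only [matAct_apply, Matrix.neg_apply, neg_smul, Finset.sum_neg_distrib, Pi.neg_apply]

theorem matAct_sub (B B' : Matrix (Fin g) (Fin g) ℤ) (x : Fin g → L) :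
    matAct (B - B') x = matAct B x - matAct B' x := by
  rw [sub_eq_add_neg, matAct_add, matAct_neg, sub_eq_add_neg]

theorem matAct_zsmul (n : ℤ) (B : Matrix (Fin g) (Fin g) ℤ) (x : Fin g → L) :
    matAct (n • B) x = n • matAct B x := by
  funext i
  simp only [matAct_apply, Matrix.smul_apply, Finset.smul_sum, Pi.smul_apply, smul_assoc]

theorem matAct_map {L' : Type*} [AddCommGroup L'] (f : L →+ L')
    (B : Matrix (Fin g) (Fin g) ℤ) (x : Fin g → L) :
    matAct B (fun i => f (x i)) = fun i => f (matAct B x i) := by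
  funext i
  simp only [matAct_apply, map_sum, map_zsmul]

end Pool.Agent.H204R3.TD
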