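import Mathlib

/-!
# The `p`-adic Tate module of an abelian group
-/

set_option linter.unusedSectionVars false

namespace Pool.Agent.H204R3.TD

open scoped TensorProduct

section Tate

variable (p : ℕ) [hp : Fact p.Prime]

/-- The compatible sequences: `x 0 = 0` and `p x (n + 1) = x n` (so `x n` is killed by `p ^ n`). -/
def tateSub (M : Type*) [AddCommGroup M] : AddSubgroup (ℕ → M) where
  carrier := {x | x 0 = 0 ∧ ∀ n, p • x (n + 1) = x n}
  zero_mem' := by simp
  add_mem' := by
    rintro x y ⟨hx, hx'⟩ ⟨hy, hy'⟩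
    refine ⟨by simp [hx, hy], fun n => ?_⟩
    simp [hx' n, hy' n]
  neg_mem' := by
    rintro x ⟨hx, hx'⟩
    refine ⟨by simp [hx], fun n => ?_⟩
    simp [hx' n]

/-- The `p`-adic Tate module `T_p M = lim M[p ^ n]` of an abelian group `M`. -/
def TateModule (M : Type*) [AddCommGroup M] : Type _ := tateSub p M

instance (M : Type*) [AddCommGroup M] : AddCommGroup (TateModule p M) :=
  inferInstanceAs (AddCommGroup (tateSub p M))

variable {p}
variable {M N Q : Type*} [AddCommGroup M] [AddCommGroup N] [AddCommGroup Q]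

/-- The component in `M[p ^ n]` of an element of the Tate module. -/
def comp (x : TateModule p M) (n : ℕ) : M := x.1 n

theorem TateModule.ext {x y : TateModule p M} (h : ∀ n, comp x n = comp y n) : x = y :=
  Subtype.ext (funext h)

theorem comp_zero (x : TateModule p M) : comp x 0 = 0 := x.2.1

theorem comp_succ (x : TateModule p M) (n : ℕ) : p • comp x (n + 1) = comp x n := x.2.2 n

@[simp] theorem comp_add (x y : TateModule p M) (n : ℕ) : comp (x + y) n = comp x n + comp y n :=
  rfl

@[simp] theorem comp_zero' (n : ℕ) : comp (0 : TateModule p M) n = 0 := rfl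

theorem pow_smul_comp (x : TateModule p M) (n : ℕ) : p ^ n • comp x n = 0 := by
  induction n with
  | zero => simpa using comp_zero x
  | succ n ih => rw [pow_succ, mul_smul, comp_succ, ih]

theorem zsmul_congr {n : ℕ} {y : M} (hy : p ^ n • y = 0) {k l : ℤ}
    (h : (k : ZMod (p ^ n)) = (l : ZMod (p ^ n))) : k • y = l • y := by
  rw [ZMod.intCast_eq_intCast_iff, Int.modEq_iff_dvd] at h
  obtain ⟨c, hc⟩ := h
  have h1 : l = k + c * ((p ^ n : ℕ) : ℤ) := by
    rw [mul_comm] at hc
    linarith
  rw [h1, add_smul, mul_smul, natCast_zsmul, hy, smul_zero, add_zero]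

theorem intCast_val {n : ℕ} (a : ZMod (p ^ n)) : ((a.val : ℤ) : ZMod (p ^ n)) = a := by
  have : NeZero (p ^ n) := ⟨pow_ne_zero _ hp.out.ne_zero⟩
  rw [Int.cast_natCast, ZMod.natCast_zmod_val]

theorem intCast_lt {n : ℕ} (a : ℤ_[p]) (k : ℤ)
    (h : (k : ZMod (p ^ (n + 1))) = PadicInt.toZModPow (n + 1) a) :
    (k : ZMod (p ^ n)) = PadicInt.toZModPow n a := by
  rw [← PadicInt.cast_toZModPow n (n + 1) (Nat.le_succ n), ← h]
  rw [ZMod.cast_intCast (pow_dvd_pow p (Nat.le_succ n))]

/-- The action of the `p`-adic integers: `a` acts on `M[p ^ n]` as `a mod p ^ n`. -/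
noncomputable instance : SMul ℤ_[p] (TateModule p M) where
  smul a x := ⟨fun n => ((PadicInt.toZModPow n a).val : ℤ) • comp x n, by
    constructor
    · simp [comp_zero]
    · intro n
      rw [smul_comm, comp_succ]
      refine zsmul_congr (pow_smul_comp x n) ?_
      rw [intCast_val]
      exact intCast_lt a _ (intCast_val _)⟩

theorem comp_smul_val (a : ℤ_[p]) (x : TateModule p M) (n : ℕ) :
    comp (a • x) n = ((PadicInt.toZModPow n a).val : ℤ) • comp x n := rfl

theorem comp_smul {a : ℤ_[p]} (x : TateModule p M) {n : ℕ} {k : ℤ}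
    (h : (k : ZMod (p ^ n)) = PadicInt.toZModPow n a) : comp (a • x) n = k • comp x n := by
  rw [comp_smul_val]
  refine zsmul_congr (pow_smul_comp x n) ?_
  rw [intCast_val, h]

noncomputable instance : Module ℤ_[p] (TateModule p M) where
  one_smul x := TateModule.ext fun n => by
    rw [comp_smul x (k := 1) (by simp), one_smul]
  mul_smul a b x := TateModule.ext fun n => by
    rw [comp_smul x (a := a * b)
      (k := (PadicInt.toZModPow n a).val * (PadicInt.toZModPow n b).val)
      (by push_cast; rw [map_mul]; simp only [← Int.cast_natCast (R := ZMod (p ^ n)), intCast_val]),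
      comp_smul_val, comp_smul_val, mul_smul]
  smul_zero a := TateModule.ext fun n => by rw [comp_smul_val]; simp
  smul_add a x y := TateModule.ext fun n => by
    rw [comp_smul_val, comp_add, comp_add, comp_smul_val, comp_smul_val, smul_add]
  add_smul a b x := TateModule.ext fun n => by
    rw [comp_smul x (a := a + b)
      (k := (PadicInt.toZModPow n a).val + (PadicInt.toZModPow n b).val)
      (by push_cast; rw [map_add]; simp only [← Int.cast_natCast (R := ZMod (p ^ n)), intCast_val]),
      comp_add, comp_smul_val, comp_smul_val, add_smul]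
  zero_smul x := TateModule.ext fun n => by
    rw [comp_smul x (k := 0) (by simp), zero_smul]; rfl

variable (p) in
/-- The map of Tate modules induced by a homomorphism. -/
noncomputable def tateMap (f : M →+ N) : TateModule p M →ₗ[ℤ_[p]] TateModule p N where
  toFun x := ⟨fun n => f (comp x n), by
    constructor
    · show f (comp x 0) = 0
      rw [comp_zero, map_zero]
    · intro n
      show p • f (comp x (n + 1)) = f (comp x n)
      rw [← map_nsmul, comp_succ]⟩
  map_add' x y := TateModule.ext fun n => map_add f _ _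
  map_smul' a x := TateModule.ext fun n => map_zsmul f _ _

@[simp] theorem comp_tateMap (f : M →+ N) (x : TateModule p M) (n : ℕ) :
    comp (tateMap p f x) n = f (comp x n) := rfl

variable (p) in
/-- The rational Tate module `V_p M = ℚ_p ⊗ T_p M`. -/
def RatTate (M : Type*) [AddCommGroup M] : Type _ := ℚ_[p] ⊗[ℤ_[p]] TateModule p M

noncomputable instance (M : Type*) [AddCommGroup M] : AddCommGroup (RatTate p M) :=
  inferInstanceAs (AddCommGroup (ℚ_[p] ⊗[ℤ_[p]] TateModule p M))

noncomputable instance (M : Type*) [AddCommGroup M] : Module ℚ_[p] (RatTate p M) :=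
  inferInstanceAs (Module ℚ_[p] (ℚ_[p] ⊗[ℤ_[p]] TateModule p M))

variable (p) in
/-- The map of rational Tate modules induced by a map of Tate modules. -/
noncomputable def extMap (f : TateModule p M →ₗ[ℤ_[p]] TateModule p N) :
    RatTate p M →ₗ[ℚ_[p]] RatTate p N := f.baseChange ℚ_[p]

variable (p) in
/-- The map of rational Tate modules induced by a homomorphism. -/
noncomputable def ratMap (f : M →+ N) : RatTate p M →ₗ[ℚ_[p]] RatTate p N :=
  extMap p (tateMap p f)

theorem tateMap_comp (g : N →+ Q) (f : M →+ N) :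
    tateMap p (g.comp f) = (tateMap p g).comp (tateMap p f) :=
  LinearMap.ext fun _ => TateModule.ext fun _ => rfl

theorem extMap_comp (g : TateModule p N →ₗ[ℤ_[p]] TateModule p Q)
    (f : TateModule p M →ₗ[ℤ_[p]] TateModule p N) :
    extMap p (g.comp f) = (extMap p g).comp (extMap p f) :=
  LinearMap.baseChange_comp _ _

variable (p) in
/-- Let a group act on the abelian group `M` by the automorphisms in the set `G`, and let `E` be a
set of endomorphisms of `M`.  The map from the `ℚ_p`-span of `E` to the equivariant endomorphisms of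
`V_p M` is surjective: every `ℚ_p`-linear endomorphism of `V_p M` that commutes with `V_p(s)` for all
`s ∈ G` is a `ℚ_p`-linear combination of the endomorphisms `V_p(f)`, `f ∈ E`. -/
def TateSurjective (M : Type*) [AddCommGroup M] (G E : Set (M →+ M)) : Prop :=
  ∀ φ : RatTate p M →ₗ[ℚ_[p]] RatTate p M,
    (∀ s ∈ G, ∀ x, φ (ratMap p s x) = ratMap p s (φ x)) →
      φ ∈ Submodule.span ℚ_[p] (ratMap p '' E)

theorem extMap_smul_id (a : ℤ_[p]) :
    extMap p (a • (LinearMap.id : TateModule p M →ₗ[ℤ_[p]] TateModule p M)) =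
      (a : ℚ_[p]) • (LinearMap.id : RatTate p M →ₗ[ℚ_[p]] RatTate p M) := by
  have h : LinearMap.baseChange ℚ_[p]
      (a • (LinearMap.id : TateModule p M →ₗ[ℤ_[p]] TateModule p M)) =
      (algebraMap ℤ_[p] ℚ_[p] a) • (LinearMap.id : (ℚ_[p] ⊗[ℤ_[p]] TateModule p M) →ₗ[ℚ_[p]] _) := by
    rw [LinearMap.baseChange_smul, LinearMap.baseChange_id, algebraMap_smul]
  exact h

/-- Injectivity up to torsion of `T_p M → V_p M`. -/
theorem one_tmul_eq {x y : TateModule p M} (h : (1 : ℚ_[p]) ⊗ₜ[ℤ_[p]] x = (1 : ℚ_[p]) ⊗ₜ[ℤ_[p]] y) :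
    ∃ c : ℤ_[p], c ≠ 0 ∧ c • x = c • y := by
  have h1 : IsLocalizedModule (nonZeroDivisors ℤ_[p])
      (TensorProduct.mk ℤ_[p] ℚ_[p] (TateModule p M) 1) :=
    (isLocalizedModule_iff_isBaseChange (nonZeroDivisors ℤ_[p]) ℚ_[p] _).2
      (TensorProduct.isBaseChange ℤ_[p] (TateModule p M) ℚ_[p])
  obtain ⟨c, hc⟩ := (IsLocalizedModule.eq_iff_exists (nonZeroDivisors ℤ_[p])
    (TensorProduct.mk ℤ_[p] ℚ_[p] (TateModule p M) 1)).1 h
  exact ⟨c.1, nonZeroDivisors.ne_zero c.2, hc⟩

end Tate

end Pool.Agent.H204R3.TD
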