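import Mathlib
import Pool.Agent.H204R3.TD.Tate
import Pool.Agent.H204R3.TD.Mat

/-!
# The extra endomorphism of the Tate module, abstract form

`L` is an abelian group (later the multiplicative group of an algebraic closure of `K`), `P : L`
and `kap : ℤ_p → L` a homomorphism (`P = p`, `kap x = (1 + p) ^ x`), `m : ℤ_p`.  The periods are
`per i k = δ i k • P + kap (S i k)`, with `S i k = δ i k * i + m`.
-/

set_option linter.unusedSectionVars false

namespace Pool.Agent.H204R3.TD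

noncomputable section

variable {p : ℕ} [hp : Fact p.Prime] {L : Type*} [AddCommGroup L] {g : ℕ}

/-- The symmetric matrix `S`. -/
def Smat (m : ℤ_[p]) (i k : Fin g) : ℤ_[p] := (if i = k then ((i : ℕ) : ℤ_[p]) else 0) + m

/-- The periods. -/
def per (P : L) (kap : ℤ_[p] →+ L) (m : ℤ_[p]) (i : Fin g) : Fin g → L :=
  fun k => (if i = k then P else 0) + kap (Smat m i k)

/-- The residue of `m`. -/
def res (m : ℤ_[p]) (n : ℕ) : ℤ := (PadicInt.toZModPow n m).val

/-- The integral approximations of `S`. -/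
def SI (m : ℤ_[p]) (n : ℕ) : Matrix (Fin g) (Fin g) ℤ :=
  Matrix.of fun i k => (if i = k then ((i : ℕ) : ℤ) else 0) + res m n

theorem exists_rem (m : ℤ_[p]) (n : ℕ) : ∃ r : ℤ_[p], m = (res m n : ℤ_[p]) + (p : ℤ_[p]) ^ n * r := by
  have h : m - (res m n : ℤ_[p]) ∈ RingHom.ker (PadicInt.toZModPow (p := p) n) := by
    rw [RingHom.mem_ker, map_sub, map_intCast, res, intCast_val, sub_self]
  rw [PadicInt.ker_toZModPow, Ideal.mem_span_singleton] at h
  obtain ⟨r, hr⟩ := h
  exact ⟨r, by rw [← hr]; ring⟩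

/-- The remainder: `m = res m n + p ^ n * rem m n`. -/
def rem (m : ℤ_[p]) (n : ℕ) : ℤ_[p] := (exists_rem m n).choose

theorem rem_spec (m : ℤ_[p]) (n : ℕ) : m = (res m n : ℤ_[p]) + (p : ℤ_[p]) ^ n * rem m n :=
  (exists_rem m n).choose_spec

theorem p_ne_zero' : (p : ℤ_[p]) ≠ 0 := by exact_mod_cast hp.out.ne_zero

theorem exists_dig (m : ℤ_[p]) (n : ℕ) : ∃ d : ℤ, res m (n + 1) = res m n + (p : ℤ) ^ n * d ∧
    rem m n = (d : ℤ_[p]) + (p : ℤ_[p]) * rem m (n + 1) := by
  have h1 : ((res m (n + 1) : ℤ) : ZMod (p ^ n)) = PadicInt.toZModPow n m :=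
    intCast_lt m _ (intCast_val _)
  have h2 : ((res m n : ℤ) : ZMod (p ^ n)) = PadicInt.toZModPow n m := intCast_val _
  have h3 := h2.trans h1.symm
  rw [ZMod.intCast_eq_intCast_iff, Int.modEq_iff_dvd] at h3
  obtain ⟨d, hd⟩ := h3
  have hd' : res m (n + 1) = res m n + (p : ℤ) ^ n * d := by
    have : ((p ^ n : ℕ) : ℤ) = (p : ℤ) ^ n := by push_cast; rfl
    rw [this] at hd
    linarith
  refine ⟨d, hd', ?_⟩
  have e1 := rem_spec m n
  have e2 := rem_spec m (n + 1)
  rw [hd'] at e2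
  push_cast at e2
  have e3 : (p : ℤ_[p]) ^ n * rem m n = (p : ℤ_[p]) ^ n * ((d : ℤ_[p]) + p * rem m (n + 1)) := by
    have : (res m n : ℤ_[p]) + (p : ℤ_[p]) ^ n * rem m n =
        (res m n : ℤ_[p]) + (p : ℤ_[p]) ^ n * ((d : ℤ_[p]) + p * rem m (n + 1)) := by
      rw [← e1]
      rw [pow_succ] at e2
      calc m = _ := e2
        _ = _ := by ring
    exact add_left_cancel this
  exact mul_left_cancel₀ (pow_ne_zero _ p_ne_zero') e3

section

variable (P : L) (kap : ℤ_[p] →+ L) (m : ℤ_[p])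

/-- Combinations of the periods. -/
def comb : (Fin g → ℤ) →+ (Fin g → L) where
  toFun b := ∑ i, b i • per P kap m i
  map_zero' := by simp
  map_add' b c := by simp [add_smul, Finset.sum_add_distrib]

theorem comb_apply (b : Fin g → ℤ) : comb P kap m b = ∑ i, b i • per P kap m i := rfl

/-- Corrections. -/
def tauv (n : ℕ) (i : Fin g) : Fin g → L := fun k => kap (rem m n * ((k : ℕ) - (i : ℕ) : ℤ))

/-- Combinations of the corrections. -/
def tau (n : ℕ) : (Fin g → ℤ) →+ (Fin g → L) where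
  toFun b := ∑ i, b i • tauv kap m n i
  map_zero' := by simp
  map_add' b c := by simp [add_smul, Finset.sum_add_distrib]

theorem tau_apply (n : ℕ) (b : Fin g → ℤ) : tau kap m n b = ∑ i, b i • tauv kap m n i := rfl

theorem zsmul_kap (c : ℤ) (x : ℤ_[p]) : c • kap x = kap ((c : ℤ_[p]) * x) := by
  rw [← map_zsmul, zsmul_eq_mul]

theorem matAct_per (C : Matrix (Fin g) (Fin g) ℤ) (i k : Fin g) :
    matAct C (per P kap m i) k = C k i • P + kap (∑ l, (C k l : ℤ_[p]) * Smat m i l) := by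
  rw [matAct_apply]
  simp only [per, smul_add, Finset.sum_add_distrib, zsmul_kap, map_sum]
  congr 1
  simp

theorem sum_per (c : Fin g → ℤ) (k : Fin g) :
    (∑ j, c j • per P kap m j) k = c k • P + kap (∑ j, (c j : ℤ_[p]) * Smat m j k) := by
  rw [Finset.sum_apply]
  simp only [Pi.smul_apply, per, smul_add, Finset.sum_add_distrib, zsmul_kap, map_sum]
  congr 1
  simp

theorem sum_SI_left (n : ℕ) (i k : Fin g) :
    ∑ l, ((SI m n k l : ℤ) : ℤ_[p]) * Smat m i l =
      (if i = k then ((i : ℕ) : ℤ_[p]) * ((i : ℕ) : ℤ_[p]) else 0) + ((k : ℕ) : ℤ_[p]) * m +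
        (res m n : ℤ_[p]) * ((i : ℕ) : ℤ_[p]) + g * ((res m n : ℤ_[p]) * m) := by
  simp only [SI, Smat, Matrix.of_apply, Int.cast_add, Int.cast_ite, Int.cast_natCast, Int.cast_zero,
    add_mul, mul_add, ite_mul, mul_ite, zero_mul, mul_zero, Finset.sum_add_distrib,
    Finset.sum_ite_eq, Finset.mem_univ, if_true, Finset.sum_const, Finset.card_univ,
    Fintype.card_fin, nsmul_eq_mul]
  by_cases h : i = k
  · subst h
    simp
    ring
  · simp [h, Ne.symm h]
    ring

theorem sum_SI_right (n : ℕ) (i k : Fin g) :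
    ∑ j, ((SI m n i j : ℤ) : ℤ_[p]) * Smat m j k =
      (if i = k then ((i : ℕ) : ℤ_[p]) * ((i : ℕ) : ℤ_[p]) else 0) + ((i : ℕ) : ℤ_[p]) * m +
        (res m n : ℤ_[p]) * ((k : ℕ) : ℤ_[p]) + g * ((res m n : ℤ_[p]) * m) := by
  simp only [SI, Smat, Matrix.of_apply, Int.cast_add, Int.cast_ite, Int.cast_natCast, Int.cast_zero,
    add_mul, mul_add, ite_mul, mul_ite, zero_mul, mul_zero, Finset.sum_add_distrib,
    Finset.sum_ite_eq, Finset.sum_ite_eq', Finset.mem_univ, if_true, Finset.sum_const,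
    Finset.card_univ, Fintype.card_fin, nsmul_eq_mul]
  by_cases h : i = k
  · subst h
    simp
    ring
  · simp [h]
    ring

theorem SI_symm (n : ℕ) (i k : Fin g) : SI m n i k = SI m n k i := by
  simp only [SI, Matrix.of_apply]
  by_cases h : i = k
  · subst h; rfl
  · rw [if_neg h, if_neg (Ne.symm h)]

theorem star_per (n : ℕ) (i : Fin g) :
    matAct (SI m n) (per P kap m i) - (p ^ n : ℕ) • tauv kap m n i =
      ∑ j, SI m n i j • per P kap m j := by
  funext k
  rw [sum_per, Pi.sub_apply, matAct_per, SI_symm m n k i, sum_SI_left, sum_SI_right, Pi.smul_apply,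
    tauv, ← map_nsmul, add_sub_assoc, ← map_sub]
  congr 2
  have h := rem_spec m n
  rw [nsmul_eq_mul]
  push_cast
  have h2 : (p : ℤ_[p]) ^ n * rem m n = m - res m n := by
    rw [eq_sub_iff_add_eq, add_comm]; exact h.symm
  have h3 : (p : ℤ_[p]) ^ n * (rem m n * (((k : ℕ) : ℤ_[p]) - ((i : ℕ) : ℤ_[p]))) =
      (m - res m n) * (((k : ℕ) : ℤ_[p]) - ((i : ℕ) : ℤ_[p])) := by
    rw [← h2]; ring
  rw [h3]
  ring

/-- The action on coefficient vectors. -/
def actR (C : Matrix (Fin g) (Fin g) ℤ) (b : Fin g → ℤ) : Fin g → ℤ := fun j => ∑ i, b i * C i j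

theorem comb_actR (C : Matrix (Fin g) (Fin g) ℤ) (b : Fin g → ℤ) :
    comb P kap m (actR C b) = ∑ i, b i • ∑ j, C i j • per P kap m j := by
  rw [comb_apply]
  simp only [actR, Finset.sum_smul, Finset.smul_sum, mul_smul]
  exact Finset.sum_comm

theorem star (n : ℕ) (b : Fin g → ℤ) :
    matAct (SI m n) (comb P kap m b) - (p ^ n : ℕ) • tau kap m n b =
      comb P kap m (actR (SI m n) b) := by
  rw [comb_actR, comb_apply, tau_apply, map_sum, Finset.smul_sum, ← Finset.sum_sub_distrib]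
  refine Finset.sum_congr rfl fun i _ => ?_
  rw [map_zsmul, smul_comm (p ^ n : ℕ) (b i), ← smul_sub, star_per]

/-- The all-ones matrix. -/
def Jm (g : ℕ) : Matrix (Fin g) (Fin g) ℤ := Matrix.of fun _ _ => 1

theorem SI_succ {n : ℕ} {d : ℤ} (hd : res m (n + 1) = res m n + (p : ℤ) ^ n * d) :
    (SI m (n + 1) : Matrix (Fin g) (Fin g) ℤ) = SI m n + ((p : ℤ) ^ n * d) • Jm g := by
  ext i k
  simp only [SI, Jm, Matrix.of_apply, Matrix.add_apply, Matrix.smul_apply, smul_eq_mul, mul_one, hd]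
  ring

theorem star2_per {n : ℕ} {d : ℤ}
    (hr : rem m n = (d : ℤ_[p]) + (p : ℤ_[p]) * rem m (n + 1)) (i : Fin g) :
    matAct (d • Jm g) (per P kap m i) - (p • tauv kap m (n + 1) i - tauv kap m n i) =
      ∑ j, (d • Jm g) i j • per P kap m j := by
  funext k
  rw [sum_per, Pi.sub_apply, matAct_per, Pi.sub_apply, Pi.smul_apply, tauv, tauv, ← map_nsmul,
    ← map_sub, add_sub_assoc, ← map_sub]
  congr 2
  simp only [Jm, Smat, Matrix.of_apply, Matrix.smul_apply, smul_eq_mul, mul_one, mul_add,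
    mul_ite, mul_zero, Finset.sum_add_distrib, Finset.sum_ite_eq, Finset.sum_ite_eq',
    Finset.mem_univ, if_true, nsmul_eq_mul]
  rw [hr]
  push_cast
  ring

theorem star2 {n : ℕ} {d : ℤ}
    (hr : rem m n = (d : ℤ_[p]) + (p : ℤ_[p]) * rem m (n + 1)) (b : Fin g → ℤ) :
    matAct (d • Jm g) (comb P kap m b) - (p • tau kap m (n + 1) b - tau kap m n b) =
      comb P kap m (actR (d • Jm g) b) := by
  rw [comb_actR, comb_apply, tau_apply, tau_apply, map_sum, Finset.smul_sum,
    ← Finset.sum_sub_distrib, ← Finset.sum_sub_distrib]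
  refine Finset.sum_congr rfl fun i _ => ?_
  rw [map_zsmul, smul_comm p (b i), ← smul_sub, ← smul_sub, star2_per P kap m hr]

end

end

end Pool.Agent.H204R3.TD
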