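import Mathlib
import Pool.Agent.H204R3.TD.Tate
import Pool.Agent.H204R3.TD.Mat

/-!
# Abelian varieties with split totally multiplicative reduction, by their period matrices

`K` is a field extension of `ℚ_p` (finite in the main theorem).  By the theorems of Tate, Mumford,
Raynaud and Gerritzen the principally polarised abelian varieties `A` of dimension `g` over `K` with
split totally multiplicative reduction are the quotients `(𝔾_m)^g / M` by a lattice `M` generated
by the rows of a symmetric matrix `q` with entries in `K^×` such that the symmetric matrix
of the valuations of the `q i j` is positive definite; the group of `Kbar`-points, with its Galois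
action, is `(Kbar^×)^g / M`, and the endomorphisms of `A` over `K` are the endomorphisms of the
group induced by the endomorphisms of the torus that preserve `M`.
-/

set_option linter.unusedSectionVars false

namespace Pool.Agent.H204R3.TD

noncomputable section

variable {K : Type*} [Field K] {g : ℕ}

variable (K g) in
/-- The group of `Kbar`-points of the torus `(𝔾_m)^g`, written additively. -/
abbrev Torus : Type _ := Fin g → Additive (AlgebraicClosure K)ˣ

/-- The endomorphism `x ↦ (∏ j, x j ^ B i j)` of the torus given by an integral matrix `B`
(every algebraic endomorphism of the torus is of this form). -/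
def torusEnd (B : Matrix (Fin g) (Fin g) ℤ) : Torus K g →+ Torus K g := matAct B

/-- The action of an element of the absolute Galois group of `K` on the points of the torus. -/
def torusGal (σ : AlgebraicClosure K ≃ₐ[K] AlgebraicClosure K) : Torus K g →+ Torus K g where
  toFun x := fun i => Additive.ofMul
    (Units.map (σ : AlgebraicClosure K →* AlgebraicClosure K) (x i).toMul)
  map_zero' := by funext i; simp
  map_add' x y := by funext i; simp

/-- The period matrices: symmetric matrices `q` with entries in `K^×` whose matrix of
valuations is positive definite, that is, `|∏ i j, q i j ^ (m i * m j)| < 1` for every nonzero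
integral vector `m`; here `|·|` is the absolute value of `K` that extends the `p`-adic one. -/
def IsPeriodMatrix (p : ℕ) [Fact p.Prime] [Algebra ℚ_[p] K] (q : Matrix (Fin g) (Fin g) Kˣ) :
    Prop :=
  (∀ i j, q i j = q j i) ∧ ∀ m : Fin g → ℤ, m ≠ 0 →
    spectralNorm ℚ_[p] K ((∏ i, ∏ j, q i j ^ (m i * m j) : Kˣ) : K) < 1

variable (q : Matrix (Fin g) (Fin g) Kˣ)

/-- The `i`-th period `(q i 0, …, q i (g - 1))`. -/
def period (i : Fin g) : Torus K g :=
  fun j => Additive.ofMul (Units.map (algebraMap K (AlgebraicClosure K) : K →* _) (q i j))

/-- The lattice `M` generated by the periods. -/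
def lattice : AddSubgroup (Torus K g) := AddSubgroup.closure (Set.range (period q))

/-- The group `A(Kbar) = (Kbar^×)^g / M`. -/
def Points : Type _ := Torus K g ⧸ lattice q

instance : AddCommGroup (Points q) := inferInstanceAs (AddCommGroup (Torus K g ⧸ lattice q))

/-- The projection from the torus. -/
def proj : Torus K g →+ Points q := QuotientAddGroup.mk' (lattice q)

theorem proj_eq_zero {x : Torus K g} : proj q x = 0 ↔ x ∈ lattice q :=
  QuotientAddGroup.eq_zero_iff x

theorem proj_surjective : Function.Surjective (proj q) := QuotientAddGroup.mk'_surjective _

theorem torusGal_period (σ : AlgebraicClosure K ≃ₐ[K] AlgebraicClosure K) (i : Fin g) :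
    torusGal σ (period q i) = period q i := by
  funext j
  apply Additive.toMul.injective
  apply Units.ext
  simp [torusGal, period]

theorem lattice_le (σ : AlgebraicClosure K ≃ₐ[K] AlgebraicClosure K) :
    lattice q ≤ (lattice q).comap (torusGal σ) := by
  unfold lattice
  rw [AddSubgroup.closure_le]
  rintro _ ⟨i, rfl⟩
  change torusGal σ (period q i) ∈ AddSubgroup.closure (Set.range (period q))
  rw [torusGal_period q σ i]
  exact AddSubgroup.subset_closure ⟨i, rfl⟩

/-- The action of the absolute Galois group of `K` on `A(Kbar)`. -/
def gal (σ : AlgebraicClosure K ≃ₐ[K] AlgebraicClosure K) : Points q →+ Points q :=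
  QuotientAddGroup.map (lattice q) (lattice q) (torusGal σ) (lattice_le q σ)

@[simp] theorem gal_proj (σ : AlgebraicClosure K ≃ₐ[K] AlgebraicClosure K) (x : Torus K g) :
    gal q σ (proj q x) = proj q (torusGal σ x) := rfl

/-- The endomorphisms of `A` over `K`: the endomorphisms of the group `A(Kbar)` that are induced
by an endomorphism of the torus (which then preserves the lattice). -/
def EndSet : Set (Points q →+ Points q) :=
  {f | ∃ B : Matrix (Fin g) (Fin g) ℤ, ∀ x : Torus K g, f (proj q x) = proj q (torusEnd B x)}

/-- The automorphisms of the group `A(Kbar)` given by the absolute Galois group of `K`. -/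
def GalSet : Set (Points q →+ Points q) := Set.range (gal q)

end

end Pool.Agent.H204R3.TD
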