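import Mathlib
import Pool.Agent.H204R3.TD.Core

/-!
# The extra endomorphism of the Tate module
-/

set_option linter.unusedSectionVars false

namespace Pool.Agent.H204R3.TD

noncomputable section

variable {p : ℕ} [hp : Fact p.Prime] {L : Type*} [AddCommGroup L] {g : ℕ}
  {Q : Type*} [AddCommGroup Q]

section

variable (P : L) (kap : ℤ_[p] →+ L) (m : ℤ_[p]) (proj : (Fin g → L) →+ Q)

/-- The standing assumptions: the elements `n • P + kap x` are different from each other and `proj`
is the projection to the quotient by the periods. -/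
structure Setup : Prop where
  ind : ∀ (n : ℤ) (x : ℤ_[p]), n • P + kap x = 0 → n = 0 ∧ x = 0
  surj : Function.Surjective proj
  ker : ∀ x, proj x = 0 ↔ ∃ b : Fin g → ℤ, x = comb P kap m b

variable {P kap m proj} (H : Setup P kap m proj)

include H in
theorem comb_inj {b : Fin g → ℤ} (h : comb P kap m b = 0) : b = 0 := by
  funext k
  have h1 := congrFun h k
  rw [comb_apply, sum_per, Pi.zero_apply] at h1
  exact (H.ind _ _ h1).1

open scoped Classical in
variable (P kap m proj) in
/-- The map on `p ^ n`-torsion. -/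
def psi (n : ℕ) (y : Q) : Q :=
  if h : ∃ X : Fin g → L, ∃ b : Fin g → ℤ, proj X = y ∧ (p ^ n : ℕ) • X = comb P kap m b then
    proj (matAct (SI m n) h.choose - tau kap m n h.choose_spec.choose) else 0

include H in
theorem psi_eq {n : ℕ} {X : Fin g → L} {b : Fin g → ℤ} (hb : (p ^ n : ℕ) • X = comb P kap m b) :
    psi P kap m proj n (proj X) = proj (matAct (SI m n) X - tau kap m n b) := by
  have h : ∃ X' : Fin g → L, ∃ b : Fin g → ℤ, proj X' = proj X ∧
      (p ^ n : ℕ) • X' = comb P kap m b := ⟨X, b, rfl, hb⟩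
  rw [psi, dif_pos h]
  obtain ⟨h1, h2⟩ := h.choose_spec.choose_spec
  set X' := h.choose
  set b' := h.choose_spec.choose
  obtain ⟨c, hc⟩ := (H.ker (X' - X)).1 (by rw [map_sub, h1, sub_self])
  have hbc : b' - b = (p ^ n : ℕ) • c := by
    have h3 : comb P kap m (b' - b - (p ^ n : ℕ) • c) = 0 := by
      rw [map_sub, map_sub, ← h2, ← hb, ← smul_sub, hc, map_nsmul, sub_self]
    have := comb_inj H h3
    rwa [sub_eq_zero] at this
  rw [← sub_eq_zero, ← map_sub, H.ker]
  refine ⟨actR (SI m n) c, ?_⟩
  rw [← star P kap m n c, ← hc, ← map_nsmul, ← hbc, map_sub, map_sub]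
  abel

include H in
theorem exists_lift {n : ℕ} {y : Q} (hy : (p ^ n : ℕ) • y = 0) :
    ∃ X : Fin g → L, ∃ b : Fin g → ℤ, proj X = y ∧ (p ^ n : ℕ) • X = comb P kap m b := by
  obtain ⟨X, rfl⟩ := H.surj y
  obtain ⟨b, hb⟩ := (H.ker ((p ^ n : ℕ) • X)).1 (by rw [map_nsmul, hy])
  exact ⟨X, b, rfl, hb⟩

include H in
theorem psi_add {n : ℕ} {y z : Q} (hy : (p ^ n : ℕ) • y = 0) (hz : (p ^ n : ℕ) • z = 0) :
    psi P kap m proj n (y + z) = psi P kap m proj n y + psi P kap m proj n z := by
  obtain ⟨X, b, rfl, hb⟩ := exists_lift H hy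
  obtain ⟨X', b', rfl, hb'⟩ := exists_lift H hz
  rw [psi_eq H hb, psi_eq H hb', ← map_add,
    psi_eq H (b := b + b') (by rw [smul_add, hb, hb', map_add]), ← map_add]
  congr 1
  rw [map_add, map_add]
  abel

include H in
theorem psi_nsmul {n : ℕ} {y : Q} (hy : (p ^ n : ℕ) • y = 0) (k : ℕ) :
    psi P kap m proj n (k • y) = k • psi P kap m proj n y := by
  obtain ⟨X, b, rfl, hb⟩ := exists_lift H hy
  rw [psi_eq H hb, ← map_nsmul,
    psi_eq H (b := k • b) (by rw [smul_comm, hb, map_nsmul]), ← map_nsmul]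
  congr 1
  rw [map_nsmul, map_nsmul, smul_sub]

include H in
theorem psi_zsmul {n : ℕ} {y : Q} (hy : (p ^ n : ℕ) • y = 0) (k : ℤ) :
    psi P kap m proj n (k • y) = k • psi P kap m proj n y := by
  obtain ⟨X, b, rfl, hb⟩ := exists_lift H hy
  rw [psi_eq H hb, ← map_zsmul,
    psi_eq H (b := k • b) (by rw [smul_comm, hb, map_zsmul]), ← map_zsmul]
  congr 1
  rw [map_zsmul, map_zsmul, smul_sub]

include H in
theorem psi_compat {n : ℕ} {y : Q} (hy : (p ^ (n + 1) : ℕ) • y = 0) :
    p • psi P kap m proj (n + 1) y = psi P kap m proj n (p • y) := by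
  obtain ⟨X, b, rfl, hb⟩ := exists_lift H hy
  rw [psi_eq H hb, ← map_nsmul, ← map_nsmul,
    psi_eq H (X := p • X) (b := b) (by rw [← hb, pow_succ, mul_smul])]
  obtain ⟨d, hd, hr⟩ := exists_dig m n
  rw [← sub_eq_zero, ← map_sub, H.ker]
  refine ⟨actR (d • Jm g) b, ?_⟩
  rw [← star2 P kap m hr b, SI_succ m hd, matAct_add, ← hb]
  have h1 : p • matAct (((p : ℤ) ^ n * d) • Jm g) X =
      matAct (d • Jm g) ((p ^ (n + 1) : ℕ) • X) := by
    rw [map_nsmul, matAct_zsmul, matAct_zsmul, ← natCast_zsmul, ← natCast_zsmul, smul_smul,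
      smul_smul]
    congr 1
    push_cast
    ring
  rw [← h1, map_nsmul]
  simp only [smul_sub, smul_add]
  abel

variable (P kap m proj) in
/-- The endomorphism of the Tate module. -/
def psiT (H : Setup P kap m proj) : TateModule p Q →ₗ[ℤ_[p]] TateModule p Q where
  toFun x := ⟨fun n => psi P kap m proj n (comp x n), by
    constructor
    · change psi P kap m proj 0 (comp x 0) = 0
      rw [comp_zero]
      have h := psi_nsmul H (n := 0) (y := (0 : Q)) (by simp) 0
      rwa [zero_smul, zero_smul] at h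
    · intro n
      change p • psi P kap m proj (n + 1) (comp x (n + 1)) = psi P kap m proj n (comp x n)
      rw [psi_compat H (pow_smul_comp x (n + 1)), comp_succ]⟩
  map_add' x y := TateModule.ext fun n => by
    change psi P kap m proj n (comp x n + comp y n) =
      psi P kap m proj n (comp x n) + psi P kap m proj n (comp y n)
    exact psi_add H (pow_smul_comp x n) (pow_smul_comp y n)
  map_smul' a x := TateModule.ext fun n => by
    change psi P kap m proj n (comp (a • x) n) = _
    rw [comp_smul_val, psi_zsmul H (pow_smul_comp x n)]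
    rfl

theorem comp_psiT (H : Setup P kap m proj) (x : TateModule p Q) (n : ℕ) :
    comp (psiT P kap m proj H x) n = psi P kap m proj n (comp x n) := rfl

/-- `psiT` commutes with every automorphism that fixes `P` and `kap`. -/
theorem psiT_comm (H : Setup P kap m proj) (s : L →+ L) (hP : s P = P) (hk : ∀ x, s (kap x) = kap x)
    (t : Q →+ Q) (ht : ∀ x : Fin g → L, t (proj x) = proj (fun i => s (x i))) :
    (psiT P kap m proj H).comp (tateMap p t) = (tateMap p t).comp (psiT P kap m proj H) := by
  ext x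
  refine TateModule.ext fun n => ?_
  change psi P kap m proj n (t (comp x n)) = t (psi P kap m proj n (comp x n))
  have hper : ∀ i k : Fin g, s (per P kap m i k) = per P kap m i k := by
    intro i k
    simp only [per, map_add, hk]
    congr 1
    by_cases h : i = k
    · rw [if_pos h, hP]
    · rw [if_neg h, map_zero]
  have hcomb : ∀ b : Fin g → ℤ, (fun i => s (comb P kap m b i)) = comb P kap m b := by
    intro b
    funext k
    rw [comb_apply, Finset.sum_apply, map_sum]
    refine Finset.sum_congr rfl fun i _ => ?_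
    rw [Pi.smul_apply, map_zsmul, hper]
  have htau : ∀ b : Fin g → ℤ, ∀ k, s (tau kap m n b k) = tau kap m n b k := by
    intro b k
    rw [tau_apply, Finset.sum_apply, map_sum]
    refine Finset.sum_congr rfl fun i _ => ?_
    rw [Pi.smul_apply, map_zsmul, tauv, hk]
  obtain ⟨X, b, hX, hb⟩ := exists_lift H (pow_smul_comp x n)
  rw [← hX, psi_eq H hb, ht, ht, psi_eq H (X := fun i => s (X i)) (b := b)]
  · congr 1
    rw [matAct_map]
    funext k
    rw [Pi.sub_apply, Pi.sub_apply, map_sub, htau]
  · rw [← hcomb b, ← hb]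
    funext k
    rw [Pi.smul_apply, Pi.smul_apply, map_nsmul]

end

end

end Pool.Agent.H204R3.TD
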