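import Mathlib
import Pool.Agent.H204R3.TD.Psi

/-!
# The extra endomorphism is not a scalar, and the endomorphism ring is `ℤ`
-/

set_option linter.unusedSectionVars false

namespace Pool.Agent.H204R3.TD

open scoped TensorProduct

noncomputable section

variable {p : ℕ} [hp : Fact p.Prime] {L : Type*} [AddCommGroup L] {g : ℕ}
  {Q : Type*} [AddCommGroup Q]

variable {P : L} {kap : ℤ_[p] →+ L} {m : ℤ_[p]} {proj : (Fin g → L) →+ Q}

/-- A compatible system of elements of order `p ^ n` has the expected orders. -/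
theorem dvd_of_zsmul {z : ℕ → L} (h0 : z 0 = 0) (hz : ∀ n, p • z (n + 1) = z n) (h1 : z 1 ≠ 0)
    (n : ℕ) : ∀ k : ℤ, k • z n = 0 → ((p ^ n : ℕ) : ℤ) ∣ k := by
  have hpow : ∀ n, (p ^ n : ℕ) • z (n + 1) = z 1 := by
    intro n
    induction n with
    | zero => simp
    | succ n ih => rw [pow_succ, mul_smul, hz, ih]
  induction n with
  | zero => intro k _; simp
  | succ n ih =>
    intro k hk
    have h2 : k • z n = 0 := by
      rw [← hz n, smul_comm, hk, smul_zero]
    obtain ⟨c, rfl⟩ := ih k h2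
    have h3 : c • z 1 = 0 := by
      rw [← hpow n, smul_comm, ← natCast_zsmul, smul_smul]
      exact hk
    have hcop : ¬ IsCoprime c (p : ℤ) := by
      rintro ⟨a, b, hab⟩
      apply h1
      have : (1 : ℤ) • z 1 = 0 := by
        rw [← hab, add_smul, mul_smul, mul_smul, h3, smul_zero, zero_add, natCast_zsmul, hz 0, h0,
          smul_zero]
      rwa [one_smul] at this
    have hdvd : (p : ℤ) ∣ c := by
      have hpr : Prime (p : ℤ) := Nat.prime_iff_prime_int.1 hp.out
      by_contra hnd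
      exact hcop ((hpr.coprime_iff_not_dvd).2 hnd).symm
    obtain ⟨e, rfl⟩ := hdvd
    exact ⟨e, by push_cast; ring⟩

/-- The element of the Tate module of the quotient given by a system of torsion points of `L` in
the coordinate `j`. -/
def toruspt (proj : (Fin g → L) →+ Q) (z : ℕ → L) (h0 : z 0 = 0)
    (hz : ∀ n, p • z (n + 1) = z n) (j : Fin g) : TateModule p Q :=
  ⟨fun n => proj (Pi.single j (z n)), by
    constructor
    · change proj (Pi.single j (z 0)) = 0
      rw [h0, Pi.single_zero, map_zero]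
    · intro n
      change p • proj (Pi.single j (z (n + 1))) = proj (Pi.single j (z n))
      rw [← map_nsmul, ← Pi.single_smul, hz]⟩

theorem not_scalar (H : Setup P kap m proj) (hm : m ≠ 0) {z : ℕ → L} (h0 : z 0 = 0)
    (hz : ∀ n, p • z (n + 1) = z n) (h1 : z 1 ≠ 0) (hg : 2 ≤ g) (c : ℚ_[p]) :
    extMap p (psiT P kap m proj H) ≠ c • LinearMap.id := by
  intro heq0
  have heq : (psiT P kap m proj H).baseChange ℚ_[p] =
    c • (LinearMap.id : (ℚ_[p] ⊗[ℤ_[p]] TateModule p Q) →ₗ[ℚ_[p]] _) := heq0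
  have hz' : ∀ n, (p ^ n : ℕ) • z n = 0 := by
    intro n
    induction n with
    | zero => rw [h0, smul_zero]
    | succ n ih => rw [pow_succ, mul_smul, hz, ih]
  let i0 : Fin g := ⟨0, by omega⟩
  let i1 : Fin g := ⟨1, by omega⟩
  have hne : i1 ≠ i0 := by
    intro h
    have := congrArg Fin.val h
    simp [i0, i1] at this
  set x := toruspt proj z h0 hz i0 with hx
  obtain ⟨a, s, hs, hc⟩ : ∃ a s : ℤ_[p], s ≠ 0 ∧ (s : ℚ_[p]) * c = a := by
    obtain ⟨⟨a, s⟩, h⟩ := IsLocalization.surj (nonZeroDivisors ℤ_[p]) c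
    refine ⟨a, s.1, nonZeroDivisors.ne_zero s.2, ?_⟩
    rw [mul_comm]
    exact h
  have h2 := congrArg (fun φ => (s : ℚ_[p]) • φ ((1 : ℚ_[p]) ⊗ₜ[ℤ_[p]] x)) heq
  simp only [LinearMap.baseChange_tmul, LinearMap.smul_apply, LinearMap.id_apply] at h2
  have h3 : (1 : ℚ_[p]) ⊗ₜ[ℤ_[p]] (s • psiT P kap m proj H x) =
      (1 : ℚ_[p]) ⊗ₜ[ℤ_[p]] (a • x) := by
    rw [TensorProduct.tmul_smul, TensorProduct.tmul_smul]
    have e1 : s • ((1 : ℚ_[p]) ⊗ₜ[ℤ_[p]] psiT P kap m proj H x) =
        (s : ℚ_[p]) • ((1 : ℚ_[p]) ⊗ₜ[ℤ_[p]] psiT P kap m proj H x) := by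
      rw [TensorProduct.smul_tmul', TensorProduct.smul_tmul', Algebra.smul_def, smul_eq_mul]
      rfl
    have e2 : a • ((1 : ℚ_[p]) ⊗ₜ[ℤ_[p]] x) = (a : ℚ_[p]) • ((1 : ℚ_[p]) ⊗ₜ[ℤ_[p]] x) := by
      rw [TensorProduct.smul_tmul', TensorProduct.smul_tmul', Algebra.smul_def, smul_eq_mul]
      rfl
    rw [e1, e2, h2, smul_smul, hc]
  obtain ⟨e, he, h4⟩ := one_tmul_eq h3
  rw [smul_smul, smul_smul] at h4
  -- the component at level `n`
  have h5 : ∀ n, PadicInt.toZModPow n ((e * s) * m) = 0 := by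
    intro n
    set u : ℤ := ((PadicInt.toZModPow n (e * s)).val : ℤ) with hu
    set v : ℤ := ((PadicInt.toZModPow n (e * a)).val : ℤ) with hv
    have h6 : comp ((e * s) • psiT P kap m proj H x) n = comp ((e * a) • x) n := by rw [h4]
    rw [comp_smul_val, comp_smul_val, comp_psiT] at h6
    have hxn : comp x n = proj (Pi.single i0 (z n)) := rfl
    rw [hxn, psi_eq H (X := Pi.single i0 (z n)) (b := 0)
      (by rw [← Pi.single_smul, hz', Pi.single_zero, map_zero])] at h6
    rw [map_zero, sub_zero] at h6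
    have h6' : proj (u • matAct (SI m n) (Pi.single i0 (z n)) - v • Pi.single i0 (z n)) = 0 := by
      rw [map_sub, map_zsmul, map_zsmul, sub_eq_zero]
      exact h6
    obtain ⟨b, hb⟩ := (H.ker _).1 h6'
    have hb0 : b = 0 := by
      have h7 : comb P kap m ((p ^ n : ℕ) • b) = 0 := by
        rw [map_nsmul, ← hb, smul_sub, smul_comm (p ^ n : ℕ) u, smul_comm (p ^ n : ℕ) v, ← map_nsmul,
          ← Pi.single_smul, hz', Pi.single_zero, map_zero, smul_zero, smul_zero, sub_zero]
      have h8 := comb_inj H h7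
      funext k
      have h9 := congrFun h8 k
      rw [Pi.smul_apply, Pi.zero_apply, smul_eq_zero] at h9
      exact h9.resolve_left (pow_ne_zero _ hp.out.ne_zero)
    rw [hb0, map_zero] at hb
    have h10 := congrFun hb i1
    rw [Pi.sub_apply, Pi.smul_apply, Pi.smul_apply, Pi.zero_apply, Pi.single_eq_of_ne hne,
      smul_zero, sub_zero, matAct_apply, Finset.sum_eq_single i0] at h10
    · rw [Pi.single_eq_same, smul_smul] at h10
      have h11 := dvd_of_zsmul h0 hz h1 n _ h10
      have h12 : SI m n i1 i0 = res m n := by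
        simp only [SI, Matrix.of_apply]
        rw [if_neg hne, zero_add]
      rw [h12] at h11
      rw [map_mul, ← intCast_val (PadicInt.toZModPow n (e * s)),
        ← intCast_val (PadicInt.toZModPow n m), ← Int.cast_mul,
        ZMod.intCast_zmod_eq_zero_iff_dvd]
      exact h11
    · intro j _ hj
      rw [Pi.single_eq_of_ne hj, smul_zero]
    · intro h; exact absurd (Finset.mem_univ _) h
  have h13 : (e * s) * m = 0 := by
    rw [← PadicInt.ext_of_toZModPow]
    intro n
    rw [h5 n, map_zero]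
  exact (mul_ne_zero (mul_ne_zero he hs) hm) h13

/-- If `m` is irrational, the endomorphisms of the torus that preserve the periods are scalars. -/
theorem scalar_of_preserves (H : Setup P kap m proj)
    (hm : ∀ x y : ℤ, (x : ℤ_[p]) = m * y → x = 0 ∧ y = 0) (hg : 0 < g)
    (B : Matrix (Fin g) (Fin g) ℤ) (hB : ∀ i, proj (matAct B (per P kap m i)) = 0) :
    ∃ n : ℤ, ∀ x : Fin g → L, matAct B x = n • x := by
  have h1 : ∀ i, ∃ c : Fin g → ℤ, matAct B (per P kap m i) = comb P kap m c := fun i =>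
    (H.ker _).1 (hB i)
  choose c hc using h1
  have h2 : ∀ i k, B k i = c i k ∧
      ∑ l, (B k l : ℤ_[p]) * Smat m i l = ∑ j, (c i j : ℤ_[p]) * Smat m j k := by
    intro i k
    have h3 := congrFun (hc i) k
    rw [matAct_per, comb_apply, sum_per] at h3
    have h4 : (B k i - c i k) • P + kap (∑ l, (B k l : ℤ_[p]) * Smat m i l -
        ∑ j, (c i j : ℤ_[p]) * Smat m j k) = 0 := by
      rw [sub_smul, map_sub]
      have := sub_eq_zero.2 h3
      rw [← this]
      abel
    obtain ⟨h5, h6⟩ := H.ind _ _ h4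
    exact ⟨sub_eq_zero.1 h5, sub_eq_zero.1 h6⟩
  have h7 : ∀ i k : Fin g, B k i * ((i : ℤ) - (k : ℤ)) = 0 ∧ (∑ l, B l i - ∑ l, B k l) = 0 := by
    intro i k
    have h8 := (h2 i k).2
    have h9 : ∑ l, (B k l : ℤ_[p]) * Smat m i l =
        (B k i : ℤ_[p]) * ((i : ℕ) : ℤ_[p]) + (∑ l, (B k l : ℤ_[p])) * m := by
      simp only [Smat, mul_add, mul_ite, mul_zero, Finset.sum_add_distrib, Finset.sum_ite_eq,
        Finset.mem_univ, if_true, Finset.sum_mul]
    have h10 : ∑ j, (c i j : ℤ_[p]) * Smat m j k =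
        (B k i : ℤ_[p]) * ((k : ℕ) : ℤ_[p]) + (∑ l, (B l i : ℤ_[p])) * m := by
      simp only [Smat, mul_add, mul_ite, mul_zero, Finset.sum_add_distrib, Finset.sum_ite_eq',
        Finset.mem_univ, if_true, Finset.sum_mul]
      rw [← (h2 i k).1]
      congr 1
      refine Finset.sum_congr rfl fun l _ => ?_
      rw [(h2 i l).1]
    rw [h9, h10] at h8
    refine hm _ _ ?_
    push_cast
    have h11 : (B k i : ℤ_[p]) * (((i : ℕ) : ℤ_[p]) - ((k : ℕ) : ℤ_[p])) =
        m * ((∑ l, (B l i : ℤ_[p])) - ∑ l, (B k l : ℤ_[p])) := by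
      linear_combination h8
    exact h11
  have hoff : ∀ i k : Fin g, k ≠ i → B k i = 0 := by
    intro i k hki
    have h8 := (h7 i k).1
    rcases mul_eq_zero.1 h8 with h | h
    · exact h
    · exfalso
      apply hki
      apply Fin.ext
      omega
  let i0 : Fin g := ⟨0, hg⟩
  have hdiag : ∀ i : Fin g, B i i = B i0 i0 := by
    intro i
    have h8 := (h7 i i0).2
    rw [Finset.sum_eq_single i, Finset.sum_eq_single i0] at h8
    · omega
    · intro l _ hl; exact hoff _ _ (Ne.symm hl)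
    · intro h; exact absurd (Finset.mem_univ _) h
    · intro l _ hl; exact hoff _ _ hl
    · intro h; exact absurd (Finset.mem_univ _) h
  refine ⟨B i0 i0, fun x => ?_⟩
  funext i
  rw [matAct_apply, Finset.sum_eq_single i, hdiag i, Pi.smul_apply]
  · intro j _ hj
    rw [hoff j i (Ne.symm hj), zero_smul]
  · intro h; exact absurd (Finset.mem_univ _) h

end

end Pool.Agent.H204R3.TD
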