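import Mathlib
import Pool.Agent.H204R3.TD.NonScalar

/-!
# The elements `p ^ n * (1 + p) ^ x`
-/

set_option linter.unusedSectionVars false

namespace Pool.Agent.H204R3.TD

noncomputable section

variable {p : ℕ} [hp : Fact p.Prime]

theorem tendsto_p : Filter.Tendsto (fun n : ℕ => (p : ℤ_[p]) ^ n) Filter.atTop (nhds 0) := by
  apply tendsto_pow_atTop_nhds_zero_of_norm_lt_one
  rw [PadicInt.norm_p]
  exact inv_lt_one_of_one_lt₀ (by exact_mod_cast hp.out.one_lt)

variable (p) in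
/-- The character `x ↦ (1 + p) ^ x` of the `p`-adic integers. -/
def kchar : AddChar ℤ_[p] ℤ_[p] := PadicInt.addChar_of_value_at_one (p : ℤ_[p]) tendsto_p

theorem kchar_continuous : Continuous (kchar p) :=
  PadicInt.continuous_addChar_of_value_at_one tendsto_p

theorem kchar_natCast (n : ℕ) : kchar p (n : ℤ_[p]) = (1 + (p : ℤ_[p])) ^ n := by
  have h : kchar p 1 = 1 + (p : ℤ_[p]) := PadicInt.addChar_of_value_at_one_def tendsto_p
  have h2 := AddChar.map_nsmul_eq_pow (kchar p) n 1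
  rw [h, nsmul_eq_mul, mul_one] at h2
  exact h2

theorem kchar_inj {x : ℤ_[p]} (hx : kchar p x = 1) : x = 0 := by
  by_contra hne
  have h1 : ∀ y : ℤ_[p], kchar p (x * y) = 1 := by
    have hc : IsClosed {y : ℤ_[p] | kchar p (x * y) = 1} :=
      isClosed_eq (kchar_continuous.comp (continuous_const.mul continuous_id)) continuous_const
    have hd : DenseRange (Nat.cast : ℕ → ℤ_[p]) := PadicInt.denseRange_natCast
    intro y
    have : y ∈ closure (Set.range (Nat.cast : ℕ → ℤ_[p])) := hd y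
    refine closure_minimal ?_ hc this
    rintro _ ⟨n, rfl⟩
    change kchar p (x * n) = 1
    rw [mul_comm, ← nsmul_eq_mul, AddChar.map_nsmul_eq_pow, hx, one_pow]
  have h2 := PadicInt.unitCoeff_spec hne
  set u := PadicInt.unitCoeff hne
  have h3 := h1 ((u⁻¹ : ℤ_[p]ˣ) : ℤ_[p])
  have h4 : x * ((u⁻¹ : ℤ_[p]ˣ) : ℤ_[p]) = ((p ^ x.valuation : ℕ) : ℤ_[p]) := by
    conv_lhs => rw [h2]
    push_cast
    rw [mul_comm (u : ℤ_[p]), mul_assoc, Units.mul_inv, mul_one]
  rw [h4, kchar_natCast] at h3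
  have h5 : (((1 + p) ^ (p ^ x.valuation) : ℕ) : ℤ_[p]) = ((1 : ℕ) : ℤ_[p]) := by
    push_cast
    exact h3
  have h6 := Nat.cast_injective h5
  have h7 : 1 < (1 + p) ^ (p ^ x.valuation) :=
    Nat.one_lt_pow (pow_ne_zero _ hp.out.ne_zero) (by have := hp.out.pos; omega)
  omega

theorem kchar_mul_neg (x : ℤ_[p]) : kchar p x * kchar p (-x) = 1 := by
  rw [← AddChar.map_add_eq_mul, add_neg_cancel, AddChar.map_zero_eq_one]

/-- `(1 + p) ^ x` as a unit. -/
def kunit (x : ℤ_[p]) : ℤ_[p]ˣ :=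
  ⟨kchar p x, kchar p (-x), kchar_mul_neg x, by rw [mul_comm]; exact kchar_mul_neg x⟩

variable (E : Type*) [Field E] [Algebra ℚ_[p] E]

/-- `(1 + p) ^ x` in the multiplicative group of `E`, written additively. -/
def kapE : ℤ_[p] →+ Additive Eˣ where
  toFun x := Additive.ofMul (Units.map
    (((algebraMap ℚ_[p] E).comp (algebraMap ℤ_[p] ℚ_[p]) : ℤ_[p] →+* E) : ℤ_[p] →* E) (kunit x))
  map_zero' := by
    apply Additive.toMul.injective
    apply Units.ext
    simp [kunit]
  map_add' x y := by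
    apply Additive.toMul.injective
    apply Units.ext
    simp [kunit, AddChar.map_add_eq_mul]

variable (p) in
/-- `p` in the multiplicative group of `E`, written additively. -/
def PE : Additive Eˣ := Additive.ofMul (Units.mk0 (algebraMap ℚ_[p] E (p : ℚ_[p]))
  (by
    rw [Ne, map_eq_zero]
    exact_mod_cast hp.out.ne_zero))

theorem val_eq (n : ℤ) (x : ℤ_[p]) :
    (((n • PE p E + kapE E x : Additive Eˣ)).toMul : Eˣ).val =
      algebraMap ℚ_[p] E ((p : ℚ_[p]) ^ n * ((kchar p x : ℤ_[p]) : ℚ_[p])) := by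
  rw [toMul_add, toMul_zsmul, Units.val_mul, Units.val_zpow_eq_zpow_val, map_mul, map_zpow₀]
  rfl

theorem norm_kchar (x : ℤ_[p]) : ‖((kchar p x : ℤ_[p]) : ℚ_[p])‖ = 1 := by
  have h : IsUnit (kchar p x) := (kunit x).isUnit
  exact PadicInt.isUnit_iff.1 h

theorem kap_ind (n : ℤ) (x : ℤ_[p]) (h : n • PE p E + kapE E x = 0) : n = 0 ∧ x = 0 := by
  have h1 := val_eq E n x
  rw [h, toMul_zero, Units.val_one] at h1
  have h2 : (p : ℚ_[p]) ^ n * ((kchar p x : ℤ_[p]) : ℚ_[p]) = 1 := by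
    apply (algebraMap ℚ_[p] E).injective
    rw [← h1, map_one]
  have h3 := congrArg norm h2
  rw [norm_mul, norm_kchar, mul_one, norm_one, norm_zpow, Padic.norm_p] at h3
  have hn : n = 0 := by
    by_contra hne
    have hp1 : (1 : ℝ) < p := by exact_mod_cast hp.out.one_lt
    rw [inv_zpow', zpow_eq_one_iff_right₀ (by positivity) hp1.ne'] at h3
    omega
  rw [hn, zpow_zero, one_mul] at h2
  refine ⟨hn, kchar_inj ?_⟩
  have h4 : ((kchar p x : ℤ_[p]) : ℚ_[p]) = ((1 : ℤ_[p]) : ℚ_[p]) := by rw [h2]; rfl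
  exact Subtype.coe_injective h4

/-- An irrational `p`-adic integer. -/
theorem exists_irr : ∃ m : ℤ_[p], m ≠ 0 ∧ ∀ x y : ℤ, (x : ℤ_[p]) = m * y → x = 0 ∧ y = 0 := by
  obtain ⟨m, hm, -⟩ := hensels_lemma (p := p) (R := ℤ_[p])
    (F := Polynomial.X ^ 2 - Polynomial.X + Polynomial.C (p : ℤ_[p])) (a := 0) (by
      simp only [map_add, map_sub, map_pow, Polynomial.aeval_X, Polynomial.aeval_C,
        Polynomial.derivative_add, Polynomial.derivative_sub, Polynomial.derivative_X_pow,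
        Polynomial.derivative_X, Polynomial.derivative_C]
      simp
      exact inv_lt_one_of_one_lt₀ (by exact_mod_cast hp.out.one_lt))
  have h1 : m ^ 2 - m + (p : ℤ_[p]) = 0 := by simpa using hm
  refine ⟨m, ?_, ?_⟩
  · rintro rfl
    apply p_ne_zero' (p := p)
    simpa using h1
  · intro x y hxy
    have h2 : (x : ℤ_[p]) ^ 2 - x * y + p * y ^ 2 = 0 := by
      rw [hxy]
      linear_combination (y : ℤ_[p]) ^ 2 * h1
    have h3 : x ^ 2 - x * y + p * y ^ 2 = 0 := by exact_mod_cast h2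
    have hp2 : (2 : ℤ) ≤ p := by exact_mod_cast hp.out.two_le
    have hy : y = 0 := by
      by_contra hne
      have : 0 < y ^ 2 := by positivity
      nlinarith [sq_nonneg (2 * x - y)]
    refine ⟨?_, hy⟩
    rw [hy] at h3
    simpa using h3

/-- Compatible torsion elements in the multiplicative group of an algebraically closed field. -/
theorem exists_torsion (E : Type*) [Field E] [IsAlgClosed E] [CharZero E] :
    ∃ z : ℕ → Additive Eˣ, z 0 = 0 ∧ (∀ n, p • z (n + 1) = z n) ∧ z 1 ≠ 0 := by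
  have hroot : ∀ w : Eˣ, ∃ v : Eˣ, v ^ p = w := by
    intro w
    obtain ⟨v, hv⟩ := IsAlgClosed.exists_pow_nat_eq (w : E) hp.out.pos
    have hv0 : v ≠ 0 := by
      rintro rfl
      rw [zero_pow hp.out.ne_zero] at hv
      exact w.ne_zero hv.symm
    exact ⟨Units.mk0 v hv0, Units.ext hv⟩
  choose r hr using hroot
  obtain ⟨ζ, hζ⟩ : ∃ ζ : E, IsPrimitiveRoot ζ p := by
    have : NeZero (p : E) := ⟨by exact_mod_cast hp.out.ne_zero⟩
    obtain ⟨ζ, hζ⟩ := IsAlgClosed.exists_root (Polynomial.cyclotomic p E) (by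
      rw [Polynomial.degree_cyclotomic]
      have := Nat.totient_pos.2 hp.out.pos
      exact_mod_cast this.ne')
    exact ⟨ζ, Polynomial.isRoot_cyclotomic_iff.1 hζ⟩
  have hζ0 : ζ ≠ 0 := hζ.ne_zero hp.out.ne_zero
  let w : ℕ → Eˣ := fun n => Nat.rec (Units.mk0 ζ hζ0) (fun _ v => r v) n
  have hw : ∀ n, w (n + 1) ^ p = w n := fun n => hr (w n)
  refine ⟨fun n => match n with
    | 0 => 0
    | n + 1 => Additive.ofMul (w n), rfl, ?_, ?_⟩
  · intro n
    cases n with
    | zero =>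
      change p • Additive.ofMul (w 0) = 0
      rw [← ofMul_pow]
      have : w 0 ^ p = 1 := Units.ext hζ.pow_eq_one
      rw [this]; rfl
    | succ n =>
      change p • Additive.ofMul (w (n + 1)) = Additive.ofMul (w n)
      rw [← ofMul_pow, hw]
  · change Additive.ofMul (w 0) ≠ 0
    intro h
    have h1 : w 0 = 1 := h
    have h2 : ζ = 1 := congrArg Units.val h1
    exact hζ.ne_one hp.out.one_lt h2

end

end Pool.Agent.H204R3.TD
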