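import Mathlib
import Pool.Agent.H204R3.TD.Defs
import Pool.Agent.H204R3.TD.Kap

/-!
# The `p`-adic Tate conjecture fails for totally degenerate abelian varieties
-/

set_option linter.unusedSectionVars false

namespace Pool.Agent.H204R3.TD

open scoped TensorProduct

noncomputable section

variable {p : ℕ} [hp : Fact p.Prime] (K : Type*) [Field K] [Algebra ℚ_[p] K] {g : ℕ}

/-- The entries of the period matrix. -/
def qent (m : ℤ_[p]) (i j : Fin g) : Kˣ :=
  ((if i = j then PE p K else 0) + kapE K (Smat m i j)).toMul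

theorem Smat_symm (m : ℤ_[p]) (i j : Fin g) : Smat m i j = Smat m j i := by
  unfold Smat
  by_cases h : i = j
  · subst h; rfl
  · rw [if_neg h, if_neg (Ne.symm h)]

theorem qent_symm (m : ℤ_[p]) (i j : Fin g) : qent K m i j = qent K m j i := by
  unfold qent
  rw [Smat_symm m i j]
  by_cases h : i = j
  · subst h; rfl
  · rw [if_neg h, if_neg (Ne.symm h)]

theorem qent_pos [FiniteDimensional ℚ_[p] K] (m : ℤ_[p]) (v : Fin g → ℤ) (hv : v ≠ 0) :
    spectralNorm ℚ_[p] K ((∏ i, ∏ j, qent K m i j ^ (v i * v j) : Kˣ) : K) < 1 := by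
  have h1 : (∏ i, ∏ j, qent K m i j ^ (v i * v j) : Kˣ) =
      ((∑ i, v i * v i) • PE p K +
        kapE K (∑ i, ∑ j, ((v i * v j : ℤ) : ℤ_[p]) * Smat m i j)).toMul := by
    apply Additive.ofMul.injective
    rw [ofMul_toMul]
    simp only [ofMul_prod, ofMul_zpow]
    have h2 : ∀ i j : Fin g, (v i * v j) • Additive.ofMul (qent K m i j) =
        (if i = j then (v i * v j) • PE p K else 0) +
          kapE K (((v i * v j : ℤ) : ℤ_[p]) * Smat m i j) := by
      intro i j
      rw [qent, ofMul_toMul, zsmul_add, zsmul_kap]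
      by_cases h : i = j
      · rw [if_pos h, if_pos h]
      · rw [if_neg h, if_neg h, zsmul_zero]
    simp only [h2, Finset.sum_add_distrib, Finset.sum_ite_eq, Finset.mem_univ, if_true, map_sum]
    congr 1
    exact (Finset.sum_smul (f := fun i => v i * v i) (x := PE p K) (s := Finset.univ)).symm
  rw [h1, val_eq, spectralNorm_extends, norm_mul, norm_kchar, mul_one, norm_zpow, Padic.norm_p]
  have h3 : 0 < ∑ i, v i * v i := by
    obtain ⟨i, hi⟩ : ∃ i, v i ≠ 0 := by
      by_contra h
      push Not at h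
      exact hv (funext h)
    exact Finset.sum_pos' (fun j _ => mul_self_nonneg _) ⟨i, Finset.mem_univ _,
      mul_self_pos.2 hi⟩
  have hp1 : (1 : ℝ) < p := by exact_mod_cast hp.out.one_lt
  rw [inv_zpow]
  exact inv_lt_one_of_one_lt₀ (one_lt_zpow₀ hp1 h3)

/-- The period matrix. -/
def ourq (m : ℤ_[p]) (g : ℕ) : Matrix (Fin g) (Fin g) Kˣ := Matrix.of fun i j => qent K m i j

theorem isPeriodMatrix_ourq [FiniteDimensional ℚ_[p] K] (m : ℤ_[p]) (g : ℕ) :
    IsPeriodMatrix p (ourq K m g) :=
  ⟨qent_symm K m, qent_pos K m⟩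

theorem map_PE : (Units.map (algebraMap K (AlgebraicClosure K) : K →* _)).toAdditive (PE p K) =
    PE p (AlgebraicClosure K) := by
  apply Additive.toMul.injective
  apply Units.ext
  change algebraMap K (AlgebraicClosure K) (algebraMap ℚ_[p] K (p : ℚ_[p])) =
    algebraMap ℚ_[p] (AlgebraicClosure K) (p : ℚ_[p])
  rw [← IsScalarTower.algebraMap_apply]

theorem map_kapE (x : ℤ_[p]) :
    (Units.map (algebraMap K (AlgebraicClosure K) : K →* _)).toAdditive (kapE K x) =
    kapE (AlgebraicClosure K) x := by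
  apply Additive.toMul.injective
  apply Units.ext
  change algebraMap K (AlgebraicClosure K) (algebraMap ℚ_[p] K _) =
    algebraMap ℚ_[p] (AlgebraicClosure K) _
  rw [← IsScalarTower.algebraMap_apply]

theorem period_eq (m : ℤ_[p]) (i : Fin g) :
    period (ourq K m g) i =
      per (PE p (AlgebraicClosure K)) (kapE (AlgebraicClosure K)) m i := by
  funext j
  change (Units.map (algebraMap K (AlgebraicClosure K) : K →* AlgebraicClosure K)).toAdditive
    ((if i = j then PE p K else 0) + kapE K (Smat m i j)) = _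
  rw [map_add, map_kapE, per]
  congr 1
  by_cases h : i = j
  · rw [if_pos h, if_pos h, map_PE]
  · rw [if_neg h, if_neg h, map_zero]

theorem setup (m : ℤ_[p]) :
    Setup (PE p (AlgebraicClosure K)) (kapE (AlgebraicClosure K)) m (proj (ourq K m g)) where
  ind := kap_ind (AlgebraicClosure K)
  surj := proj_surjective _
  ker := by
    intro x
    rw [proj_eq_zero]
    constructor
    · intro h
      have hle : lattice (ourq K m g) ≤
          (comb (PE p (AlgebraicClosure K)) (kapE (AlgebraicClosure K)) m).range := by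
        unfold lattice
        rw [AddSubgroup.closure_le]
        rintro _ ⟨i, rfl⟩
        refine ⟨Pi.single i 1, ?_⟩
        rw [period_eq, comb_apply, Finset.sum_eq_single i]
        · rw [Pi.single_eq_same, one_zsmul]
        · intro j _ hj
          rw [Pi.single_eq_of_ne hj, zero_zsmul]
        · intro h; exact absurd (Finset.mem_univ _) h
      obtain ⟨b, hb⟩ := hle h
      exact ⟨b, hb.symm⟩
    · rintro ⟨b, rfl⟩
      rw [comb_apply]
      refine AddSubgroup.sum_mem _ fun i _ => AddSubgroup.zsmul_mem _ ?_ _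
      rw [← period_eq]
      exact AddSubgroup.subset_closure ⟨i, rfl⟩

theorem isEnd_ourq (m : ℤ_[p])
    (hm : ∀ x y : ℤ, (x : ℤ_[p]) = m * y → x = 0 ∧ y = 0) (hg : 0 < g)
    (f : Points (ourq K m g) →+ Points (ourq K m g)) (hf : f ∈ EndSet (ourq K m g)) :
    ∃ n : ℤ, ∀ x, f x = n • x := by
  obtain ⟨B, hB⟩ := hf
  obtain ⟨n, hn⟩ := scalar_of_preserves (setup K m) hm hg B (by
    intro i
    have h := hB (per (PE p (AlgebraicClosure K)) (kapE (AlgebraicClosure K)) m i)
    have h0 : proj (ourq K m g)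
        (per (PE p (AlgebraicClosure K)) (kapE (AlgebraicClosure K)) m i) = 0 := by
      rw [proj_eq_zero, ← period_eq]
      exact AddSubgroup.subset_closure ⟨i, rfl⟩
    rw [h0, map_zero] at h
    exact h.symm)
  refine ⟨n, fun y => ?_⟩
  obtain ⟨x, rfl⟩ := proj_surjective _ y
  have h1 := hB x
  rw [torusEnd, hn x, map_zsmul] at h1
  exact h1

/-- The extra endomorphism of the rational Tate module. -/
def extra (m : ℤ_[p]) (g : ℕ) :
    RatTate p (Points (ourq K m g)) →ₗ[ℚ_[p]] RatTate p (Points (ourq K m g)) :=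
  extMap p (psiT _ _ m _ (setup (g := g) K m))

theorem isGalEquivariant_extra (m : ℤ_[p]) :
    ∀ s ∈ GalSet (ourq K m g), ∀ x, extra K m g (ratMap p s x) = ratMap p s (extra K m g x) := by
  rintro _ ⟨σ, rfl⟩ x
  have h := psiT_comm (setup (g := g) K m)
    (Units.map (σ : AlgebraicClosure K →* AlgebraicClosure K)).toAdditive (by
      rw [← map_PE K]
      apply Additive.toMul.injective
      apply Units.ext
      exact σ.commutes _) (by
      intro x
      rw [← map_kapE K]
      apply Additive.toMul.injective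
      apply Units.ext
      exact σ.commutes _) (gal (ourq K m g) σ) (fun x => rfl)
  have h2 := congrArg (extMap p) h
  rw [extMap_comp, extMap_comp] at h2
  exact LinearMap.congr_fun h2 x

theorem extra_not_mem [FiniteDimensional ℚ_[p] K] (m : ℤ_[p]) (hm0 : m ≠ 0)
    (hm : ∀ x y : ℤ, (x : ℤ_[p]) = m * y → x = 0 ∧ y = 0) (hg : 2 ≤ g) :
    extra K m g ∉ Submodule.span ℚ_[p] (ratMap p '' EndSet (ourq K m g)) := by
  intro hmem
  have hle : Submodule.span ℚ_[p] (ratMap p '' EndSet (ourq K m g)) ≤
      Submodule.span ℚ_[p] {LinearMap.id} := by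
    rw [Submodule.span_le]
    rintro _ ⟨f, hf, rfl⟩
    obtain ⟨n, hn⟩ := isEnd_ourq K m hm (by omega) f hf
    rw [SetLike.mem_coe, Submodule.mem_span_singleton]
    refine ⟨(n : ℚ_[p]), ?_⟩
    have h1 : tateMap p f = (n : ℤ_[p]) • LinearMap.id := by
      refine LinearMap.ext fun x => TateModule.ext fun k => ?_
      change f (comp x k) = comp ((n : ℤ_[p]) • x) k
      rw [hn, comp_smul x (k := n) (by rw [map_intCast])]
    have h2 : (((n : ℤ_[p]) : ℤ_[p]) : ℚ_[p]) = (n : ℚ_[p]) := PadicInt.coe_intCast n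
    rw [ratMap, h1, extMap_smul_id, h2]
  obtain ⟨c, hc⟩ := Submodule.mem_span_singleton.1 (hle hmem)
  have : CharZero K := charZero_of_injective_algebraMap (algebraMap ℚ_[p] K).injective
  have : CharZero (AlgebraicClosure K) :=
    charZero_of_injective_algebraMap (algebraMap K (AlgebraicClosure K)).injective
  obtain ⟨z, h0, hz, h1⟩ := exists_torsion (p := p) (AlgebraicClosure K)
  exact not_scalar (setup K m) hm0 h0 hz h1 hg c hc.symm

end

end Pool.Agent.H204R3.TD
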